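import Pool.Agent.W940.LSD.Stm

/-!
# Project LS, part LSD-TUR: Turan's inequality on an interval
-/

set_option autoImplicit false

namespace Pool.Agent.W96.LSD

open Finset Filter Pool.Agent.W307.LS Pool.Agent.W940.LSD

open scoped Classical

/-- the indicator of divisibility -/
noncomputable def cc (d : ℕ) (n : ℤ) : ℝ := if (d : ℤ) ∣ n then 1 else 0

/-- the number of multiples -/
noncomputable def DD (A : ℤ) (N d : ℕ) : ℝ := ∑ n ∈ Ico A (A + N), cc d n

theorem DD_bound (A : ℤ) (N d : ℕ) (hd : 0 < d) : |DD A N d - (N : ℝ) / d| ≤ 1 := by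
  have hd' : (0 : ℤ) < d := by exact_mod_cast hd
  have h1 : DD A N d = (((Ico A (A + N)).filter (fun x => (d : ℤ) ∣ x)).card : ℝ) := by
    unfold DD cc
    rw [Finset.sum_ite]
    simp
  have h2 := Int.Ico_filter_dvd_card A (A + N) hd'
  have hle : ⌈((A : ℤ) : ℚ) / ((d : ℤ) : ℚ)⌉ ≤ ⌈((A + N : ℤ) : ℚ) / ((d : ℤ) : ℚ)⌉ := by
    apply Int.ceil_le_ceil
    have : (0 : ℚ) < ((d : ℤ) : ℚ) := by exact_mod_cast hd'
    apply div_le_div_of_nonneg_right _ this.le
    push_cast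
    linarith [Nat.cast_nonneg (α := ℚ) N]
  have h3 : ((((Ico A (A + N)).filter (fun x => (d : ℤ) ∣ x)).card : ℤ)) =
      ⌈((A + N : ℤ) : ℚ) / ((d : ℤ) : ℚ)⌉ - ⌈((A : ℤ) : ℚ) / ((d : ℤ) : ℚ)⌉ := by
    rw [h2]
    apply max_eq_left
    omega
  have hdq : (0 : ℚ) < (d : ℚ) := by exact_mod_cast hd
  have e1 := Int.le_ceil (((A + N : ℤ) : ℚ) / ((d : ℤ) : ℚ))
  have e2 := Int.ceil_lt_add_one (((A + N : ℤ) : ℚ) / ((d : ℤ) : ℚ))
  have e3 := Int.le_ceil (((A : ℤ) : ℚ) / ((d : ℤ) : ℚ))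
  have e4 := Int.ceil_lt_add_one (((A : ℤ) : ℚ) / ((d : ℤ) : ℚ))
  have e5 : ((A + N : ℤ) : ℚ) / ((d : ℤ) : ℚ) = ((A : ℤ) : ℚ) / ((d : ℤ) : ℚ) + (N : ℚ) / d := by
    push_cast
    ring
  have h4 : |(((((Ico A (A + N)).filter (fun x => (d : ℤ) ∣ x)).card : ℤ) : ℚ)) - (N : ℚ) / d| ≤ 1 := by
    rw [h3, abs_le]
    push_cast at e1 e2 e3 e4 e5 ⊢
    constructor
    · linarith
    · linarith
  rw [h1]
  have h5 : ((|(((((Ico A (A + N)).filter (fun x => (d : ℤ) ∣ x)).card : ℤ) : ℚ)) - (N : ℚ) / d| : ℚ) : ℝ) ≤ ((1 : ℚ) : ℝ) := by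
    exact_mod_cast h4
  push_cast at h5
  exact h5

theorem cc_mul (p q : ℕ) (hp : p.Prime) (hq : q.Prime) (h : p ≠ q) (n : ℤ) :
    cc p n * cc q n = cc (p * q) n := by
  unfold cc
  have hcop : IsCoprime (p : ℤ) (q : ℤ) := by
    rw [Nat.isCoprime_iff_coprime]
    exact (Nat.coprime_primes hp hq).2 h
  by_cases h1 : (p : ℤ) ∣ n
  · by_cases h2 : (q : ℤ) ∣ n
    · have h3 : ((p * q : ℕ) : ℤ) ∣ n := by
        push_cast
        exact hcop.mul_dvd h1 h2
      simp only [h1, h2, if_true, mul_one]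
      rw [if_pos h3]
    · have h3 : ¬ ((p * q : ℕ) : ℤ) ∣ n := by
        intro h3
        push_cast at h3
        exact h2 (dvd_trans (dvd_mul_left _ _) h3)
      rw [if_neg h2, if_neg h3, mul_zero]
  · have h3 : ¬ ((p * q : ℕ) : ℤ) ∣ n := by
      intro h3
      push_cast at h3
      exact h1 (dvd_trans (dvd_mul_right _ _) h3)
    rw [if_neg h1, if_neg h3, zero_mul]

theorem cc_sq (p : ℕ) (n : ℤ) : cc p n * cc p n = cc p n := by
  unfold cc
  split_ifs <;> simp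

theorem card_Ico' (A : ℤ) (N : ℕ) : ((Ico A (A + N)).card : ℝ) = N := by
  simp

theorem expand (A : ℤ) (N p q : ℕ) :
    ∑ n ∈ Ico A (A + N), (cc p n - 1 / p) * (cc q n - 1 / q) =
      (∑ n ∈ Ico A (A + N), cc p n * cc q n) - DD A N p / q - DD A N q / p +
        (N : ℝ) / (p * q) := by
  have h : ∀ n : ℤ, (cc p n - 1 / p) * (cc q n - 1 / q) =
      cc p n * cc q n - cc p n / q - cc q n / p + 1 / (p * q) := by
    intro n
    ring
  simp_rw [h]
  rw [Finset.sum_add_distrib, Finset.sum_sub_distrib, Finset.sum_sub_distrib, Finset.sum_const,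
    ← Finset.sum_div, ← Finset.sum_div, nsmul_eq_mul, card_Ico']
  unfold DD
  ring

theorem pair_bound (A : ℤ) (N p q : ℕ) (hp : p.Prime) (hq : q.Prime) :
    ∑ n ∈ Ico A (A + N), (cc p n - 1 / p) * (cc q n - 1 / q) ≤
      (if p = q then (N : ℝ) / p else 0) + 2 := by
  rw [expand]
  have hp2 : (2 : ℝ) ≤ p := by exact_mod_cast hp.two_le
  have hq2 : (2 : ℝ) ≤ q := by exact_mod_cast hq.two_le
  have hp0 : (0 : ℝ) < p := by linarith
  have hq0 : (0 : ℝ) < q := by linarith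
  have bp := abs_le.1 (DD_bound A N p hp.pos)
  have bq := abs_le.1 (DD_bound A N q hq.pos)
  have hN : (0 : ℝ) ≤ N := Nat.cast_nonneg N
  by_cases h : p = q
  · subst h
    rw [if_pos rfl]
    have h1 : ∑ n ∈ Ico A (A + N), cc p n * cc p n = DD A N p := by
      unfold DD
      exact Finset.sum_congr rfl (fun n _ => cc_sq p n)
    rw [h1]
    set θ : ℝ := DD A N p - (N : ℝ) / p with hθ
    have h2 : DD A N p = (N : ℝ) / p + θ := by rw [hθ]; ring
    rw [h2]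
    have h3 : (N : ℝ) / p + θ - ((N : ℝ) / p + θ) / p - ((N : ℝ) / p + θ) / p + (N : ℝ) / (p * p) =
        (N : ℝ) / p + θ * (1 - 2 / p) - (N : ℝ) / (p * p) := by
      field_simp
      ring
    rw [h3]
    have h4 : 0 ≤ (N : ℝ) / (p * p) := by positivity
    have h5 : (2 : ℝ) / p ≤ 1 := by rw [div_le_one hp0]; exact hp2
    have h6 : 0 < (2 : ℝ) / p := by positivity
    have h7 : θ * (1 - 2 / p) ≤ 1 := by
      calc θ * (1 - 2 / p) ≤ 1 * (1 - 2 / p) :=
            mul_le_mul_of_nonneg_right bp.2 (by linarith)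
        _ ≤ 1 := by linarith
    linarith
  · rw [if_neg h]
    have h1 : ∑ n ∈ Ico A (A + N), cc p n * cc q n = DD A N (p * q) := by
      unfold DD
      exact Finset.sum_congr rfl (fun n _ => cc_mul p q hp hq h n)
    rw [h1]
    have bpq := abs_le.1 (DD_bound A N (p * q) (Nat.mul_pos hp.pos hq.pos))
    push_cast at bpq
    have h2 : -(1 / 2) ≤ (DD A N p - (N : ℝ) / p) / q := by
      rw [le_div_iff₀ hq0]
      nlinarith [bp.1]
    have h3 : -(1 / 2) ≤ (DD A N q - (N : ℝ) / q) / p := by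
      rw [le_div_iff₀ hp0]
      nlinarith [bq.1]
    have h4 : (DD A N p - (N : ℝ) / p) / q = DD A N p / q - (N : ℝ) / (p * q) := by
      field_simp
    have h5 : (DD A N q - (N : ℝ) / q) / p = DD A N q / p - (N : ℝ) / (p * q) := by
      field_simp
    rw [h4] at h2
    rw [h5] at h3
    linarith [bpq.2]

theorem mem_PP {y p : ℕ} (h : p ∈ PP y) : p.Prime := by
  unfold PP at h
  exact (Finset.mem_filter.1 h).2.1

theorem card_PP (y : ℕ) : (PP y).card ≤ y := by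
  have h : PP y ⊆ Icc 1 y := by
    intro p hp
    unfold PP at hp
    rw [Finset.mem_filter, Finset.mem_range] at hp
    rw [Finset.mem_Icc]
    exact ⟨hp.2.1.one_lt.le, by omega⟩
  calc (PP y).card ≤ (Icc 1 y).card := Finset.card_le_card h
    _ = y := by simp

theorem ww_eq (y : ℕ) (n : ℤ) : (ww y n : ℝ) - LL y = ∑ p ∈ PP y, (cc p n - 1 / p) := by
  unfold ww LL cc
  rw [Finset.sum_sub_distrib, Finset.card_filter]
  push_cast
  rfl

theorem LL_nonneg (y : ℕ) : 0 ≤ LL y := by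
  unfold LL
  exact Finset.sum_nonneg (fun p _ => by positivity)

theorem tur : TUR := by
  intro y A N
  have h1 : ∀ n : ℤ, ((ww y n : ℝ) - LL y) ^ 2 =
      ∑ p ∈ PP y, ∑ q ∈ PP y, (cc p n - 1 / p) * (cc q n - 1 / q) := by
    intro n
    rw [ww_eq, sq, Finset.sum_mul_sum]
  simp_rw [h1]
  rw [Finset.sum_comm]
  have h2 : ∀ p ∈ PP y, ∑ n ∈ Ico A (A + N), ∑ q ∈ PP y, (cc p n - 1 / p) * (cc q n - 1 / q) ≤
      (N : ℝ) / p + 2 * (PP y).card := by
    intro p hp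
    rw [Finset.sum_comm]
    calc ∑ q ∈ PP y, ∑ n ∈ Ico A (A + N), (cc p n - 1 / p) * (cc q n - 1 / q)
        ≤ ∑ q ∈ PP y, ((if p = q then (N : ℝ) / p else 0) + 2) :=
          Finset.sum_le_sum (fun q hq => pair_bound A N p q (mem_PP hp) (mem_PP hq))
      _ = (N : ℝ) / p + 2 * (PP y).card := by
          rw [Finset.sum_add_distrib, Finset.sum_ite_eq, if_pos hp, Finset.sum_const, nsmul_eq_mul]
          ring
  have h3 := Finset.sum_le_sum h2
  have h4 : ∑ p ∈ PP y, ((N : ℝ) / p + 2 * (PP y).card) = N * LL y + 2 * ((PP y).card : ℝ) ^ 2 := by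
    rw [Finset.sum_add_distrib, Finset.sum_const, nsmul_eq_mul]
    unfold LL
    rw [Finset.mul_sum]
    have : ∀ p ∈ PP y, (N : ℝ) * (1 / p) = (N : ℝ) / p := by
      intro p _
      ring
    rw [Finset.sum_congr rfl this]
    ring
  rw [h4] at h3
  have h5 : ((PP y).card : ℝ) ≤ y := by exact_mod_cast card_PP y
  have h6 : ((PP y).card : ℝ) ^ 2 ≤ (y : ℝ) ^ 2 :=
    pow_le_pow_left₀ (Nat.cast_nonneg _) h5 2
  have h7 : 0 ≤ (N : ℝ) * LL y := mul_nonneg (Nat.cast_nonneg _) (LL_nonneg y)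
  nlinarith [sq_nonneg (y : ℝ)]

end Pool.Agent.W96.LSD
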